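import Mathlib

/-!
# Paths and cycles as functions on the naturals

A path with `k` vertices is a function `p : ℕ → V` looked at on `0, ..., k - 1`; a cycle with `c`
vertices is either such a path whose ends are adjacent (`CycF`) or a periodic function (`Per`).
-/

set_option autoImplicit false
open Finset

namespace Pool.Agent.Q84.TC

variable {V : Type*}

/-- `p 0, ..., p (k - 1)` is a path. -/
def PathF (G : SimpleGraph V) (k : ℕ) (p : ℕ → V) : Prop :=
  (∀ i j, i < j → j < k → p i ≠ p j) ∧ (∀ i, i + 1 < k → G.Adj (p i) (p (i + 1)))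

/-- `p 0, ..., p (c - 1)` is a cycle (an edge when `c = 2`). -/
def CycF (G : SimpleGraph V) (c : ℕ) (p : ℕ → V) : Prop :=
  PathF G c p ∧ G.Adj (p (c - 1)) (p 0)

/-- a cycle with `c` vertices as a periodic function -/
def Per (G : SimpleGraph V) (c : ℕ) (f : ℕ → V) : Prop :=
  0 < c ∧ (∀ i, f (i + c) = f i) ∧ (∀ i, G.Adj (f i) (f (i + 1))) ∧
    ∀ i j, i < j → j < i + c → f i ≠ f j

theorem CycF.per {G : SimpleGraph V} {c : ℕ} {p : ℕ → V} (hc : 0 < c) (h : CycF G c p) :
    Per G c (fun i => p (i % c)) := by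
  obtain ⟨⟨h1, h2⟩, h3⟩ := h
  refine ⟨hc, fun i => by simp, ?_, ?_⟩
  · intro i
    have hi := Nat.mod_lt i hc
    rcases Nat.lt_or_ge (i % c + 1) c with h | h
    · have : (i + 1) % c = i % c + 1 := by
        rw [Nat.add_mod, Nat.mod_eq_of_lt (a := i % c + 1 % c)]
        · rw [Nat.mod_eq_of_lt (a := 1)]; omega
        · rw [Nat.mod_eq_of_lt (a := 1)] <;> omega
      simp only [this]
      exact h2 _ h
    · have h4 : i % c = c - 1 := by omega
      have : (i + 1) % c = 0 := by
        have h5 : (i + 1) % c = (i % c + 1) % c := by simp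
        rw [h5, h4]
        have : c - 1 + 1 = c := by omega
        rw [this]; simp
      simp only [this, h4]
      exact h3
  · intro i j hij hj
    have hi' := Nat.mod_lt i hc
    have hj' := Nat.mod_lt j hc
    have hne : i % c ≠ j % c := by
      intro h
      have : (j - i) % c = 0 := by
        have := (Nat.modEq_iff_dvd' (n := c) hij.le).1 h
        exact Nat.mod_eq_zero_of_dvd this
      rw [Nat.mod_eq_of_lt (by omega)] at this
      omega
    rcases Nat.lt_or_ge (i % c) (j % c) with h | h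
    · exact h1 _ _ h hj'
    · exact (h1 _ _ (by omega) hi').symm

namespace Per

variable {G : SimpleGraph V} {c : ℕ} {f : ℕ → V}

theorem shift (h : Per G c f) (s : ℕ) : Per G c (fun i => f (s + i)) := by
  obtain ⟨h0, h1, h2, h3⟩ := h
  refine ⟨h0, fun i => by dsimp only; rw [← add_assoc]; exact h1 _, fun i => h2 _,
    fun i j hij hj => ?_⟩
  exact h3 _ _ (by omega) (by omega)

theorem add_mul (h : Per G c f) (i k : ℕ) : f (i + c * k) = f i := by
  induction k with
  | zero => simp
  | succ k ih => rw [Nat.mul_succ, ← add_assoc, h.2.1, ih]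

theorem mod (h : Per G c f) (i : ℕ) : f (i % c) = f i := by
  conv_rhs => rw [← Nat.mod_add_div i c]
  rw [h.add_mul]

theorem cycF (h : Per G c f) : CycF G c f := by
  obtain ⟨h0, h1, h2, h3⟩ := h
  refine ⟨⟨fun i j hij hj => h3 _ _ hij (by omega), fun i _ => h2 i⟩, ?_⟩
  have := h2 (c - 1)
  rw [Nat.sub_add_cancel h0] at this
  have h4 := h1 0
  rw [zero_add] at h4
  rwa [h4] at this

theorem inj (h : Per G c f) {i j : ℕ} (hi : i < c) (hj : j < c) (hij : f i = f j) : i = j := by
  rcases lt_trichotomy i j with h' | h' | h'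
  · exact absurd hij (h.2.2.2 _ _ h' (by omega))
  · exact h'
  · exact absurd hij.symm (h.2.2.2 _ _ h' (by omega))

theorem two_le (h : Per G c f) : 2 ≤ c := by
  obtain ⟨h0, h1, h2, h3⟩ := h
  by_contra hc
  have : c = 1 := by omega
  subst this
  have := h2 0
  rw [h1 0] at this
  exact this.ne rfl

/-- Replace the arc from `f s` to `f (s + i)` by a path outside the cycle. -/
theorem reroute (h : Per G c f) {s i k : ℕ} (hi1 : 1 ≤ i) (hic : i < c) (hk : 1 ≤ k) {p : ℕ → V}
    (hp : PathF G k p) (hout : ∀ a, a < k → ∀ j, f j ≠ p a) (h1 : G.Adj (f s) (p 0))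
    (h2 : G.Adj (p (k - 1)) (f (s + i))) :
    CycF G (k + (c - i + 1)) (fun t => if t < k then p t else f (s + i + (t - k))) := by
  obtain ⟨hc0, hper, hadj, hinj⟩ := h
  refine ⟨⟨?_, ?_⟩, ?_⟩
  · intro a b hab hb
    dsimp only
    split_ifs with h3 h4 h4
    · exact hp.1 _ _ hab h4
    · exact (hout _ h3 _).symm
    · omega
    · exact hinj _ _ (by omega) (by omega)
  · intro a ha
    dsimp only
    split_ifs with h3 h4 h4
    · exact hp.2 _ h4
    · have e1 : a = k - 1 := by omega
      have e2 : s + i + (a + 1 - k) = s + i := by omega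
      rw [e2, e1]; exact h2
    · omega
    · have : s + i + (a + 1 - k) = (s + i + (a - k)) + 1 := by omega
      rw [this]; exact hadj _
  · dsimp only
    have e1 : ¬ (k + (c - i + 1) - 1 < k) := by omega
    have e2 : (0 : ℕ) < k := hk
    simp only [e1, e2, if_true, if_false]
    have e3 : s + i + (k + (c - i + 1) - 1 - k) = s + c := by omega
    rw [e3, hper]
    exact h1

/-- On a longest cycle, a detour of `k` vertices replaces an arc with at least `k` inner
vertices. -/
theorem detour (h : Per G c f) (hmax : ∀ L p, CycF G L p → L ≤ c) {s i k : ℕ} (hi1 : 1 ≤ i)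
    (hic : i < c) (hk : 1 ≤ k) {p : ℕ → V} (hp : PathF G k p)
    (hout : ∀ a, a < k → ∀ j, f j ≠ p a) (h1 : G.Adj (f s) (p 0))
    (h2 : G.Adj (p (k - 1)) (f (s + i))) : k + 1 ≤ i := by
  have := hmax _ _ (h.reroute hi1 hic hk hp hout h1 h2)
  omega

end Per

/-- the reversed path -/
theorem PathF.rev {G : SimpleGraph V} {k : ℕ} {p : ℕ → V} (h : PathF G k p) :
    PathF G k (fun t => p (k - 1 - t)) := by
  refine ⟨fun i j hij hj => (h.1 _ _ (by omega) (by omega)).symm, fun i hi => ?_⟩
  have := h.2 (k - 1 - (i + 1)) (by omega)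
  have e : k - 1 - (i + 1) + 1 = k - 1 - i := by omega
  rw [e] at this
  exact this.symm

/-- Spaced sets on a cycle. -/
theorem spaced {ℓ q : ℕ} (I : Finset ℕ) (hI : I ⊆ range ℓ)
    (h : ∀ s ∈ I, ∀ i, 1 ≤ i → i < q → (s + i) % ℓ ∉ I) : I.card * q ≤ ℓ := by
  classical
  have hmaps : ∀ x ∈ I ×ˢ range q, (x.1 + x.2) % ℓ ∈ range ℓ := by
    intro x hx
    rw [mem_product] at hx
    have := mem_range.1 (hI hx.1)
    exact mem_range.2 (Nat.mod_lt _ (by omega))
  have hinj : ∀ x ∈ I ×ˢ range q, ∀ y ∈ I ×ˢ range q,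
      (x.1 + x.2) % ℓ = (y.1 + y.2) % ℓ → x = y := by
    have key : ∀ x ∈ I ×ˢ range q, ∀ y ∈ I ×ˢ range q, x.2 ≤ y.2 →
        (x.1 + x.2) % ℓ = (y.1 + y.2) % ℓ → x = y := by
      rintro ⟨s, j⟩ hx ⟨s', j'⟩ hy hle heq
      rw [mem_product] at hx hy
      obtain ⟨hs, hj⟩ := hx
      obtain ⟨hs', hj'⟩ := hy
      dsimp only at hs hj hs' hj' hle heq
      have hsl := mem_range.1 (hI hs)
      have hsl' := mem_range.1 (hI hs')
      rw [mem_range] at hj hj'
      have h1 : s % ℓ = (s' + (j' - j)) % ℓ := by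
        have : (s + j) ≡ (s' + (j' - j)) + j [MOD ℓ] := by
          have e : s' + (j' - j) + j = s' + j' := by omega
          rw [e]; exact heq
        exact Nat.ModEq.add_right_cancel' j this
      rw [Nat.mod_eq_of_lt hsl] at h1
      rcases Nat.eq_zero_or_pos (j' - j) with h0 | h0
      · have hjj : j = j' := by omega
        rw [h0, add_zero, Nat.mod_eq_of_lt hsl'] at h1
        rw [h1, hjj]
      · exact absurd (h1 ▸ hs) (h s' hs' (j' - j) h0 (by omega))
    intro x hx y hy heq
    rcases le_total x.2 y.2 with h' | h'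
    · exact key x hx y hy h' heq
    · exact (key y hy x hx h' heq.symm).symm
  have := card_le_card_of_injOn (fun x : ℕ × ℕ => (x.1 + x.2) % ℓ) hmaps hinj
  rwa [card_product, card_range, card_range] at this

end Pool.Agent.Q84.TC
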