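import Pool.Agent.Q84.TC.Basic

/-!
# The Erdős–Gallai theorem on long cycles

A graph on `n` vertices all of whose cycles have at most `c` vertices has at most `c (n - 1) / 2`
edges. The proof is by induction on the number of vertices with contractions: contract an edge in
few triangles, or a longest cycle when no vertex outside has two neighbours on it.
-/

set_option autoImplicit false
open Finset
open scoped Classical

namespace Pool.Agent.Q84.TC

variable {V : Type*} [Fintype V]

/-- the neighbours of `x` -/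
noncomputable def nb (G : SimpleGraph V) (x : V) : Finset V := univ.filter (fun y => G.Adj x y)

theorem mem_nb {G : SimpleGraph V} {x y : V} : y ∈ nb G x ↔ G.Adj x y := by simp [nb]

/-- the sum of the degrees -/
noncomputable def D (G : SimpleGraph V) : ℕ := ∑ x, (nb G x).card

/-- the contraction of `S` to the vertex `r` of `S` -/
def con (G : SimpleGraph V) (S : Finset V) (r : V) : SimpleGraph V where
  Adj a b := a ≠ b ∧ ((a ∉ S ∧ b ∉ S ∧ G.Adj a b) ∨ (a = r ∧ b ∉ S ∧ ∃ s ∈ S, G.Adj s b) ∨
    (b = r ∧ a ∉ S ∧ ∃ s ∈ S, G.Adj s a))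
  symm := ⟨by
    rintro a b ⟨h0, h | h | h⟩
    · exact ⟨h0.symm, Or.inl ⟨h.2.1, h.1, h.2.2.symm⟩⟩
    · exact ⟨h0.symm, Or.inr (Or.inr h)⟩
    · exact ⟨h0.symm, Or.inr (Or.inl h)⟩⟩
  loopless := ⟨fun a h => h.1 rfl⟩

/-- any two vertices of `S` are joined by a path inside `S` -/
def Linked (G : SimpleGraph V) (S : Finset V) : Prop :=
  ∀ u ∈ S, ∀ v ∈ S, ∃ k q, 1 ≤ k ∧ PathF G k q ∧ q 0 = u ∧ q (k - 1) = v ∧ ∀ a, a < k → q a ∈ S

/-- Cycles of a contraction lift to cycles of the graph that are at least as long. -/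
theorem con_lift {G : SimpleGraph V} {S : Finset V} {r : V} (hr : r ∈ S) (hS : Linked G S) {L : ℕ}
    {p : ℕ → V} (hL : 0 < L) (hp : CycF (con G S r) L p) : ∃ L' p', L ≤ L' ∧ CycF G L' p' := by
  have hper := hp.per hL
  set f : ℕ → V := fun i => p (i % L) with hf
  have h2 := hper.two_le
  by_cases hex : ∃ i, f i = r
  · obtain ⟨i0, hi0⟩ := hex
    have hg := hper.shift i0
    set g : ℕ → V := fun i => f (i0 + i) with hgdef
    have hg0 : g 0 = r := by simp [hgdef, hi0]
    have hout : ∀ i, 1 ≤ i → i < L → g i ∉ S := by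
      intro i hi1 hi2 hiS
      have hne : g i ≠ r := by
        rw [← hg0]; exact (hg.2.2.2 0 i (by omega) (by omega)).symm
      have hadj := hg.2.2.1 i
      rcases hadj.2 with h | h | h
      · exact h.1 hiS
      · exact hne h.1
      · exact h.2.1 hiS
    have hGadj : ∀ i, 1 ≤ i → i + 1 < L → G.Adj (g i) (g (i + 1)) := by
      intro i hi1 hi2
      have hadj := hg.2.2.1 i
      have hne1 : g i ≠ r := by
        rw [← hg0]; exact (hg.2.2.2 0 i (by omega) (by omega)).symm
      have hne2 : g (i + 1) ≠ r := by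
        rw [← hg0]; exact (hg.2.2.2 0 (i + 1) (by omega) (by omega)).symm
      rcases hadj.2 with h | h | h
      · exact h.2.2
      · exact absurd h.1 hne1
      · exact absurd h.1 hne2
    obtain ⟨u, huS, hu⟩ : ∃ u ∈ S, G.Adj u (g 1) := by
      have hadj := hg.2.2.1 0
      rcases hadj.2 with h | h | h
      · exact absurd hr (hg0 ▸ h.1)
      · exact h.2.2
      · exact absurd hr (hg0 ▸ h.2.1)
    obtain ⟨v, hvS, hv⟩ : ∃ v ∈ S, G.Adj v (g (L - 1)) := by
      have hadj := hg.2.2.1 (L - 1)
      have e1 : g (L - 1 + 1) = r := by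
        have : L - 1 + 1 = 0 + L := by omega
        rw [this, hg.2.1, hg0]
      rw [e1] at hadj
      rcases hadj.2 with h | h | h
      · exact absurd hr h.2.1
      · exact absurd hr h.2.1
      · exact h.2.2
    obtain ⟨k, q, hk, hq, hq0, hqk, hqS⟩ := hS v hvS u huS
    refine ⟨L - 1 + k, fun t => if t < L - 1 then g (1 + t) else q (t - (L - 1)), by omega,
      ⟨?_, ?_⟩, ?_⟩
    · intro a b hab hb
      dsimp only
      split_ifs with h3 h4 h4
      · exact hg.2.2.2 _ _ (by omega) (by omega)
      · intro h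
        exact hout (1 + a) (by omega) (by omega) (h ▸ hqS _ (by omega))
      · omega
      · exact hq.1 _ _ (by omega) (by omega)
    · intro a ha
      dsimp only
      split_ifs with h3 h4 h4
      · exact hGadj _ (by omega) (by omega)
      · have e1 : 1 + a = L - 1 := by omega
        have e2 : a + 1 - (L - 1) = 0 := by omega
        rw [e1, e2, hq0]; exact hv.symm
      · omega
      · have : a + 1 - (L - 1) = (a - (L - 1)) + 1 := by omega
        rw [this]; exact hq.2 _ (by omega)
    · dsimp only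
      have e1 : ¬ (L - 1 + k - 1 < L - 1) := by omega
      have e2 : 0 < L - 1 := by omega
      simp only [e1, e2, if_true, if_false]
      have e3 : L - 1 + k - 1 - (L - 1) = k - 1 := by omega
      rw [e3, hqk]
      exact hu
  · push Not at hex
    refine ⟨L, f, le_rfl, ⟨hper.cycF.1.1, ?_⟩, ?_⟩
    · intro i hi
      rcases (hper.2.2.1 i).2 with h | h | h
      · exact h.2.2
      · exact absurd h.1 (hex _)
      · exact absurd h.1 (hex _)
    · rcases hper.cycF.2.2 with h | h | h
      · exact h.2.2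
      · exact absurd h.1 (hex _)
      · exact absurd h.1 (hex _)

theorem nb_con_out {G : SimpleGraph V} {S : Finset V} {r : V} (hr : r ∈ S) {x : V} (hx : x ∉ S) :
    (nb (con G S r) x).card = (nb G x \ S).card + (if (nb G x ∩ S).Nonempty then 1 else 0) := by
  have hne : x ≠ r := fun h => hx (h ▸ hr)
  split_ifs with h
  · have : nb (con G S r) x = insert r (nb G x \ S) := by
      ext y
      rw [mem_nb, mem_insert, mem_sdiff, mem_nb]
      constructor
      · rintro ⟨h0, h1 | h1 | h1⟩
        · exact Or.inr ⟨h1.2.2, h1.2.1⟩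
        · exact absurd h1.1 hne
        · exact Or.inl h1.1
      · rintro (rfl | ⟨h1, h2⟩)
        · obtain ⟨s, hs⟩ := h
          rw [mem_inter, mem_nb] at hs
          exact ⟨hne, Or.inr (Or.inr ⟨rfl, hx, s, hs.2, hs.1.symm⟩)⟩
        · exact ⟨h1.ne, Or.inl ⟨hx, h2, h1⟩⟩
    rw [this, card_insert_of_notMem]
    simp [hr]
  · have : nb (con G S r) x = nb G x \ S := by
      ext y
      rw [mem_nb, mem_sdiff, mem_nb]
      constructor
      · rintro ⟨h0, h1 | h1 | h1⟩
        · exact ⟨h1.2.2, h1.2.1⟩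
        · exact absurd h1.1 hne
        · obtain ⟨s, hs, hsx⟩ := h1.2.2
          exact absurd ⟨s, by rw [mem_inter, mem_nb]; exact ⟨hsx.symm, hs⟩⟩ h
      · rintro ⟨h1, h2⟩
        exact ⟨h1.ne, Or.inl ⟨hx, h2, h1⟩⟩
    rw [this, add_zero]

theorem nb_con_r {G : SimpleGraph V} {S : Finset V} {r : V} (hr : r ∈ S) :
    (nb (con G S r) r).card = ∑ x ∈ univ \ S, (if (nb G x ∩ S).Nonempty then 1 else 0) := by
  rw [← card_filter]
  congr 1
  ext y
  rw [mem_nb, mem_filter, mem_sdiff]
  constructor
  · rintro ⟨h0, h1 | h1 | h1⟩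
    · exact absurd hr h1.1
    · obtain ⟨s, hs, hsx⟩ := h1.2.2
      exact ⟨⟨mem_univ _, h1.2.1⟩, s, by rw [mem_inter, mem_nb]; exact ⟨hsx.symm, hs⟩⟩
    · exact absurd hr h1.2.1
  · rintro ⟨⟨-, h1⟩, s, hs⟩
    rw [mem_inter, mem_nb] at hs
    exact ⟨fun h => h1 (h ▸ hr), Or.inr (Or.inl ⟨rfl, h1, s, hs.2, hs.1.symm⟩)⟩

theorem nb_con_in {G : SimpleGraph V} {S : Finset V} {r : V} {x : V} (hx : x ∈ S)
    (hxr : x ≠ r) : (nb (con G S r) x).card = 0 := by
  rw [card_eq_zero, eq_empty_iff_forall_notMem]
  intro y hy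
  rw [mem_nb] at hy
  obtain ⟨h0, h1 | h1 | h1⟩ := hy
  · exact h1.1 hx
  · exact hxr h1.1
  · exact h1.2.1 hx

theorem cross (G : SimpleGraph V) (S : Finset V) :
    ∑ x ∈ S, (nb G x \ S).card = ∑ x ∈ univ \ S, (nb G x ∩ S).card := by
  have h1 : ∀ x, (nb G x \ S).card = ∑ y ∈ univ \ S, (if G.Adj x y then 1 else 0) := by
    intro x
    rw [← card_filter]
    congr 1
    ext y
    rw [mem_sdiff, mem_nb, mem_filter, mem_sdiff]
    simp [and_comm]
  have h2 : ∀ x, (nb G x ∩ S).card = ∑ y ∈ S, (if G.Adj x y then 1 else 0) := by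
    intro x
    rw [← card_filter]
    congr 1
    ext y
    rw [mem_inter, mem_nb, mem_filter]
    simp [and_comm]
  simp only [h1, h2]
  rw [sum_comm]
  apply sum_congr rfl
  intro x _
  apply sum_congr rfl
  intro y _
  simp only [G.adj_comm]

theorem D_con (G : SimpleGraph V) {S : Finset V} {r : V} (hr : r ∈ S) :
    D G = D (con G S r) + ∑ x ∈ S, (nb G x ∩ S).card +
      2 * ∑ x ∈ univ \ S, ((nb G x ∩ S).card - 1) := by
  have hsplit : ∀ φ : V → ℕ, ∑ x, φ x = ∑ x ∈ S, φ x + ∑ x ∈ univ \ S, φ x := by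
    intro φ
    rw [add_comm, sum_sdiff (subset_univ S)]
  have h1 : ∀ x, (nb G x).card = (nb G x ∩ S).card + (nb G x \ S).card := by
    intro x
    rw [card_inter_add_card_sdiff]
  have h3 : ∑ x ∈ S, (nb (con G S r) x).card =
      ∑ x ∈ univ \ S, (if (nb G x ∩ S).Nonempty then 1 else 0) := by
    rw [← nb_con_r hr]
    apply sum_eq_single_of_mem r hr
    intro x hx hxr
    exact nb_con_in hx hxr
  have h4 : ∑ x ∈ univ \ S, (nb (con G S r) x).card = ∑ x ∈ univ \ S, (nb G x \ S).card +
      ∑ x ∈ univ \ S, (if (nb G x ∩ S).Nonempty then 1 else 0) := by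
    rw [← sum_add_distrib]
    apply sum_congr rfl
    intro x hx
    exact nb_con_out hr (by rw [mem_sdiff] at hx; exact hx.2)
  have h5 : ∑ x ∈ univ \ S, (nb G x ∩ S).card = ∑ x ∈ univ \ S, ((nb G x ∩ S).card - 1) +
      ∑ x ∈ univ \ S, (if (nb G x ∩ S).Nonempty then 1 else 0) := by
    rw [← sum_add_distrib]
    apply sum_congr rfl
    intro x _
    split_ifs with h
    · have := h.card_pos; omega
    · rw [not_nonempty_iff_eq_empty] at h
      simp [h]
  unfold D
  rw [hsplit (fun x => (nb G x).card), hsplit (fun x => (nb (con G S r) x).card), h3, h4]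
  simp only [h1, sum_add_distrib]
  rw [cross G S]
  omega

/-- A greedy path inside `K`. -/
theorem greedy {G : SimpleGraph V} {K : Finset V} {w : V} (hw : w ∈ K) {d : ℕ}
    (hd : ∀ x ∈ K, d ≤ (nb G x ∩ K).card) :
    ∃ p, PathF G (d + 1) p ∧ p 0 = w ∧ ∀ a, a < d + 1 → p a ∈ K := by
  have key : ∀ k, k ≤ d → ∃ p, PathF G (k + 1) p ∧ p 0 = w ∧ ∀ a, a < k + 1 → p a ∈ K := by
    intro k
    induction k with
    | zero =>
      intro _
      exact ⟨fun _ => w, ⟨fun i j hij hj => by omega, fun i hi => by omega⟩, rfl, fun _ _ => hw⟩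
    | succ k ih =>
      intro hk
      obtain ⟨p, hp, hp0, hpK⟩ := ih (by omega)
      obtain ⟨z, hz, hz2⟩ : ∃ z ∈ nb G (p k) ∩ K, z ∉ (range k).image p := by
        by_contra hcon
        push Not at hcon
        have h1 : nb G (p k) ∩ K ⊆ (range k).image p := hcon
        have h2 := card_le_card h1
        have h3 : ((range k).image p).card ≤ k := card_image_le.trans (by simp)
        have h4 := hd _ (hpK k (by omega))
        omega
      rw [mem_inter, mem_nb] at hz
      have hzne : ∀ a, a < k + 1 → p a ≠ z := by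
        intro a ha h
        rcases Nat.lt_or_ge a k with h' | h'
        · exact hz2 (mem_image.2 ⟨a, mem_range.2 h', h⟩)
        · have : a = k := by omega
          subst this
          exact hz.1.ne h
      refine ⟨fun t => if t < k + 1 then p t else z, ⟨?_, ?_⟩, ?_, ?_⟩
      · intro a b hab hb
        dsimp only
        split_ifs with h3 h4 h4
        · exact hp.1 _ _ hab h4
        · exact hzne _ h3
        · omega
        · omega
      · intro a ha
        dsimp only
        split_ifs with h3 h4 h4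
        · exact hp.2 _ h4
        · have : a = k := by omega
          subst this
          exact hz.1
        · omega
        · omega
      · simp [hp0]
      · intro a ha
        dsimp only
        split_ifs with h3
        · exact hpK _ h3
        · exact hz.2
  exact key d le_rfl

end Pool.Agent.Q84.TC
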