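import Pool.Agent.Q84.TC.EG

/-!
# The Erdős–Gallai theorem on long cycles: the induction
-/

set_option autoImplicit false
set_option linter.unusedSectionVars false
open Finset
open scoped Classical

namespace Pool.Agent.Q84.TC

variable {V : Type*} [Fintype V]

theorem exists_longest {G : SimpleGraph V} {c : ℕ} (hmax : ∀ L p, CycF G L p → L ≤ c)
    {a : ℕ} {p : ℕ → V} (hp : CycF G a p) :
    ∃ ℓ q, CycF G ℓ q ∧ ℓ ≤ c ∧ a ≤ ℓ ∧ ∀ L p, CycF G L p → L ≤ ℓ := by
  have hbdd : BddAbove {L | ∃ p, CycF G L p} := ⟨c, fun L ⟨p, hp⟩ => hmax L p hp⟩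
  have hmem := Nat.sSup_mem (s := {L | ∃ p, CycF G L p}) ⟨a, p, hp⟩ hbdd
  obtain ⟨q, hq⟩ := hmem
  exact ⟨_, q, hq, hmax _ _ hq, le_csSup hbdd ⟨p, hp⟩, fun L p hp => le_csSup hbdd ⟨p, hp⟩⟩

theorem edge_cyc {G : SimpleGraph V} {x y : V} (h : G.Adj x y) :
    CycF G 2 (fun t => if t = 0 then x else y) := by
  refine ⟨⟨?_, ?_⟩, ?_⟩
  · intro i j hij hj
    have h1 : i = 0 := by omega
    have h2 : j = 1 := by omega
    subst h1; subst h2
    simpa using h.ne
  · intro i hi
    have : i = 0 := by omega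
    subst this
    simpa using h
  · simpa using h.symm

/-- the vertex set of a cycle -/
noncomputable def vs (f : ℕ → V) (c : ℕ) : Finset V := (range c).image f

theorem mem_vs {G : SimpleGraph V} {c : ℕ} {f : ℕ → V} (h : Per G c f) (i : ℕ) :
    f i ∈ vs f c := by
  rw [← h.mod i]
  exact mem_image_of_mem _ (mem_range.2 (Nat.mod_lt _ h.1))

theorem card_vs {G : SimpleGraph V} {c : ℕ} {f : ℕ → V} (h : Per G c f) : (vs f c).card = c := by
  unfold vs
  rw [card_image_of_injOn, card_range]
  intro i hi j hj hij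
  exact h.inj (mem_range.1 hi) (mem_range.1 hj) hij

theorem vs_linked {G : SimpleGraph V} {c : ℕ} {f : ℕ → V} (h : Per G c f) :
    Linked G (vs f c) := by
  intro u hu v hv
  obtain ⟨i, hi, rfl⟩ := mem_image.1 hu
  obtain ⟨j, hj, rfl⟩ := mem_image.1 hv
  rw [mem_range] at hi hj
  obtain ⟨j', hj1, hj2, hj3⟩ : ∃ j', i ≤ j' ∧ j' < i + c ∧ f j' = f j := by
    rcases Nat.lt_or_ge j i with h' | h'
    · exact ⟨j + c, by omega, by omega, h.2.1 j⟩
    · exact ⟨j, h', by omega, rfl⟩
  refine ⟨j' - i + 1, fun t => f (i + t), by omega, ⟨?_, ?_⟩, by simp, ?_, ?_⟩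
  · intro a b hab hb
    exact h.2.2.2 _ _ (by omega) (by omega)
  · intro a _
    exact h.2.2.1 _
  · have : i + (j' - i + 1 - 1) = j' := by omega
    simp only [this, hj3]
  · intro a _
    exact mem_vs h _

theorem pair_linked {G : SimpleGraph V} {x y : V} (h : G.Adj x y) :
    Linked G ({x, y} : Finset V) := by
  have key : ∀ u v : V, G.Adj u v → u ∈ ({x, y} : Finset V) → v ∈ ({x, y} : Finset V) →
      ∃ k q, 1 ≤ k ∧ PathF G k q ∧ q 0 = u ∧ q (k - 1) = v ∧
        ∀ a, a < k → q a ∈ ({x, y} : Finset V) := by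
    intro u v huv hu hv
    refine ⟨2, fun t => if t = 0 then u else v, by omega, (edge_cyc huv).1, by simp, by simp, ?_⟩
    intro a _
    dsimp only
    split_ifs
    · exact hu
    · exact hv
  intro u hu v hv
  by_cases huv : u = v
  · subst huv
    exact ⟨1, fun _ => u, le_rfl, ⟨fun i j hij hj => by omega, fun i hi => by omega⟩, rfl, rfl,
      fun _ _ => hu⟩
  · apply key u v _ hu hv
    rw [mem_insert, mem_singleton] at hu hv
    rcases hu with rfl | rfl <;> rcases hv with rfl | rfl
    · exact absurd rfl huv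
    · exact h
    · exact h.symm
    · exact absurd rfl huv

theorem con_sub {G : SimpleGraph V} {S A : Finset V} {r : V} (hr : r ∈ S)
    (hGA : ∀ x y, G.Adj x y → x ∈ A) :
    ∀ x y, (con G S r).Adj x y → x ∈ insert r (A \ S) := by
  rintro x y ⟨-, h | h | h⟩
  · exact mem_insert_of_mem (mem_sdiff.2 ⟨hGA _ _ h.2.2, h.1⟩)
  · exact h.1 ▸ mem_insert_self _ _
  · obtain ⟨s, -, hs⟩ := h.2.2
    exact mem_insert_of_mem (mem_sdiff.2 ⟨hGA _ _ hs.symm, h.2.1⟩)

theorem arith {α q c : ℕ} (h1 : 2 ≤ α) (h2 : 2 ≤ q) (h3 : c + 5 ≤ 2 * q + 2 * α)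
    (h4 : α * q ≤ c) : False := by
  obtain ⟨a, rfl⟩ := Nat.exists_eq_add_of_le h1
  obtain ⟨b, rfl⟩ := Nat.exists_eq_add_of_le h2
  nlinarith [Nat.zero_le (a * b)]

/-- the main case of the induction -/
theorem main_case {G : SimpleGraph V} {c ℓ : ℕ} {f : ℕ → V} (hf : Per G ℓ f) (hℓ : ℓ ≤ c)
    (hmax : ∀ L p, CycF G L p → L ≤ ℓ)
    (hall : ∀ x y, G.Adj x y → c < 2 * ((nb G x ∩ nb G y).card + 1))
    {w : V} (hw : w ∉ vs f ℓ) (hwmax : ∀ x, x ∉ vs f ℓ →
      (nb G x ∩ vs f ℓ).card ≤ (nb G w ∩ vs f ℓ).card)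
    (hw2 : 2 ≤ (nb G w ∩ vs f ℓ).card) : False := by
  set S := vs f ℓ with hS
  set α := (nb G w ∩ S).card with hα
  set d := (c + 2 - 2 * α) / 2 with hd
  set I := (range ℓ).filter (fun i => f i ∈ nb G w) with hI
  have hIcard : α ≤ I.card := by
    rw [hα]
    apply le_trans (card_le_card (t := I.image f) _) card_image_le
    intro x hx
    rw [mem_inter] at hx
    obtain ⟨i, hi, rfl⟩ := mem_image.1 hx.2
    exact mem_image_of_mem _ (mem_filter.2 ⟨hi, hx.1⟩)
  -- separation
  have hsep : ∀ s i, f s ∈ nb G w → f (s + i) ∈ nb G w → 1 ≤ i → i < ℓ → d + 2 ≤ i := by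
    intro s i hs hsi hi1 hi2
    set u := f (s + i) with hu
    set K := nb G u \ S with hK
    have hwK : w ∈ K := by
      rw [hK, mem_sdiff, mem_nb]
      exact ⟨(mem_nb.1 hsi).symm, hw⟩
    have hKd : ∀ x ∈ K, d ≤ (nb G x ∩ K).card := by
      intro x hx
      rw [hK, mem_sdiff, mem_nb] at hx
      have h1 := hall x u hx.1.symm
      have h2 := hwmax x hx.2
      have h3 : (nb G x ∩ nb G u) ⊆ (nb G x ∩ K) ∪ ((nb G x ∩ S).erase u) := by
        intro z hz
        rw [mem_inter] at hz
        by_cases hzS : z ∈ S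
        · apply mem_union_right
          rw [mem_erase, mem_inter]
          exact ⟨(mem_nb.1 hz.2).ne', hz.1, hzS⟩
        · apply mem_union_left
          rw [mem_inter, hK, mem_sdiff]
          exact ⟨hz.1, hz.2, hzS⟩
      have h4 := (card_le_card h3).trans (card_union_le _ _)
      have h5 : ((nb G x ∩ S).erase u).card = (nb G x ∩ S).card - 1 := by
        apply card_erase_of_mem
        rw [mem_inter, mem_nb]
        exact ⟨hx.1.symm, mem_vs hf _⟩
      have h6 : 1 ≤ (nb G x ∩ S).card := by
        apply Finset.card_pos.2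
        exact ⟨u, by rw [mem_inter, mem_nb]; exact ⟨hx.1.symm, mem_vs hf _⟩⟩
      omega
    obtain ⟨p, hp, hp0, hpK⟩ := greedy hwK hKd
    have hout : ∀ a, a < d + 1 → ∀ j, f j ≠ p a := by
      intro a ha j h
      have := hpK a ha
      rw [hK, mem_sdiff] at this
      exact this.2 (h ▸ mem_vs hf j)
    have h1 : G.Adj (f s) (p 0) := by rw [hp0]; exact (mem_nb.1 hs).symm
    have h2 : G.Adj (p (d + 1 - 1)) (f (s + i)) := by
      have := hpK (d + 1 - 1) (by omega)
      rw [hK, mem_sdiff, mem_nb] at this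
      exact this.1.symm
    exact hf.detour hmax hi1 hi2 (by omega) hp hout h1 h2
  have hsp := spaced (ℓ := ℓ) (q := min (d + 2) ℓ) I (filter_subset _ _) (by
    intro s hs i hi1 hi2 hmem
    rw [hI, mem_filter] at hs hmem
    rw [hf.mod] at hmem
    have := hsep s i hs.2 hmem.2 hi1 (lt_of_lt_of_le hi2 (min_le_right _ _))
    have := lt_of_lt_of_le hi2 (min_le_left _ _)
    omega)
  have h2 := hf.two_le
  rcases le_total (d + 2) ℓ with h | h
  · rw [min_eq_left h] at hsp
    have h5 : α * (d + 2) ≤ c := le_trans (Nat.mul_le_mul_right _ hIcard) (hsp.trans hℓ)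
    exact arith hw2 (by omega) (by omega) h5
  · rw [min_eq_right h] at hsp
    have h5 : 2 * ℓ ≤ ℓ := le_trans (Nat.mul_le_mul_right _ (hw2.trans hIcard)) hsp
    omega

theorem EG {c : ℕ} (hc : 2 ≤ c) : ∀ (n : ℕ) (A : Finset V) (G : SimpleGraph V), A.card = n →
    A.Nonempty → (∀ x y, G.Adj x y → x ∈ A) → (∀ L p, CycF G L p → L ≤ c) →
    D G ≤ c * (A.card - 1) := by
  intro n
  induction n using Nat.strong_induction_on with
  | _ n ih =>
  intro A G hn hA hGA hmax
  by_cases hno : ∃ x y, G.Adj x y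
  swap
  · have : D G = 0 := by
      unfold D
      apply sum_eq_zero
      intro x _
      rw [card_eq_zero, eq_empty_iff_forall_notMem]
      intro y hy
      exact hno ⟨x, y, mem_nb.1 hy⟩
    rw [this]; exact Nat.zero_le _
  by_cases hedge : ∃ x y, G.Adj x y ∧ 2 * ((nb G x ∩ nb G y).card + 1) ≤ c
  · obtain ⟨x, y, hxy, ht⟩ := hedge
    have hDc := D_con G (S := {x, y}) (r := x) (by simp)
    have hxA := hGA _ _ hxy
    have hyA := hGA _ _ hxy.symm
    have hSA : ({x, y} : Finset V) ⊆ A := by
      intro z hz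
      rw [mem_insert, mem_singleton] at hz
      rcases hz with rfl | rfl
      · exact hxA
      · exact hyA
    have hScard : ({x, y} : Finset V).card = 2 := card_pair hxy.ne
    have hAc : (insert x (A \ {x, y})).card = A.card - 1 := by
      rw [card_insert_of_notMem (by simp), card_sdiff_of_subset hSA, hScard]
      have := card_le_card hSA
      omega
    have hA2 := card_le_card hSA
    rw [hScard] at hA2
    have h1 := ih (A.card - 1) (by omega) (insert x (A \ {x, y})) (con G {x, y} x) hAc
      ⟨x, mem_insert_self _ _⟩ (con_sub (by simp) hGA) (by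
        intro L p hp
        rcases Nat.eq_zero_or_pos L with h0 | h0
        · omega
        · obtain ⟨L', p', hL', hp'⟩ := con_lift (by simp) (pair_linked hxy) h0 hp
          exact hL'.trans (hmax _ _ hp'))
    rw [hAc] at h1
    have h2 : ∑ z ∈ ({x, y} : Finset V), (nb G z ∩ {x, y}).card ≤ 2 := by
      rw [sum_pair hxy.ne]
      have e1 : nb G x ∩ {x, y} ⊆ {y} := by
        intro z hz
        rw [mem_inter, mem_nb, mem_insert, mem_singleton] at hz
        rw [mem_singleton]
        rcases hz.2 with rfl | h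
        · exact absurd rfl hz.1.ne
        · exact h
      have e2 : nb G y ∩ {x, y} ⊆ {x} := by
        intro z hz
        rw [mem_inter, mem_nb, mem_insert, mem_singleton] at hz
        rw [mem_singleton]
        rcases hz.2 with h | rfl
        · exact h
        · exact absurd rfl hz.1.ne
      have f1 := card_le_card e1
      have f2 := card_le_card e2
      rw [card_singleton] at f1 f2
      omega
    have h3 : ∑ z ∈ univ \ ({x, y} : Finset V), ((nb G z ∩ {x, y}).card - 1) ≤
        (nb G x ∩ nb G y).card := by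
      calc _ ≤ ∑ z ∈ univ \ ({x, y} : Finset V), (if z ∈ nb G x ∩ nb G y then 1 else 0) := by
            apply sum_le_sum
            intro z _
            split_ifs with h
            · have : (nb G z ∩ {x, y}).card ≤ 2 := by
                rw [← hScard]; exact card_le_card inter_subset_right
              omega
            · have : (nb G z ∩ {x, y}).card ≤ 1 := by
                by_contra hcon
                push Not at hcon
                have h4 : (nb G z ∩ {x, y}) = {x, y} := by
                  apply eq_of_subset_of_card_le inter_subset_right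
                  rw [hScard]; exact hcon
                apply h
                have hx : x ∈ nb G z ∩ {x, y} := by rw [h4]; simp
                have hy : y ∈ nb G z ∩ {x, y} := by rw [h4]; simp
                rw [mem_inter, mem_nb] at hx hy
                rw [mem_inter, mem_nb, mem_nb]
                exact ⟨hx.1.symm, hy.1.symm⟩
              omega
        _ = ((univ \ ({x, y} : Finset V)).filter (fun z => z ∈ nb G x ∩ nb G y)).card := by
            rw [card_filter]
        _ ≤ _ := card_le_card (fun z hz => (mem_filter.1 hz).2)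
    have h4 : A.card - 1 = (A.card - 1 - 1) + 1 := by omega
    rw [h4, mul_add, mul_one]
    omega
  · push Not at hedge
    obtain ⟨x0, y0, hxy0⟩ := hno
    obtain ⟨ℓ, q, hq, hℓc, hℓ2, hℓmax⟩ := exists_longest hmax (edge_cyc hxy0)
    have hf := hq.per (by omega)
    set f : ℕ → V := fun i => q (i % ℓ) with hfdef
    set S := vs f ℓ with hS
    by_cases hbig : ∃ w, w ∉ S ∧ 2 ≤ (nb G w ∩ S).card
    · exfalso
      obtain ⟨w0, hw0, hw02⟩ := hbig
      obtain ⟨w, hw, hwmax⟩ := exists_max_image (univ \ S) (fun w => (nb G w ∩ S).card)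
        ⟨w0, mem_sdiff.2 ⟨mem_univ _, hw0⟩⟩
      rw [mem_sdiff] at hw
      refine main_case hf hℓc hℓmax hedge hw.2 (fun x hx => ?_) ?_
      · exact hwmax x (mem_sdiff.2 ⟨mem_univ _, hx⟩)
      · exact hw02.trans (hwmax w0 (mem_sdiff.2 ⟨mem_univ _, hw0⟩))
    · push Not at hbig
      have hSc : S.card = ℓ := card_vs hf
      have hSA : S ⊆ A := by
        intro z hz
        obtain ⟨i, -, rfl⟩ := mem_image.1 hz
        exact hGA _ _ (hf.2.2.1 i)
      have hrS : f 0 ∈ S := mem_vs hf 0
      have hDc := D_con G hrS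
      have hAS := card_le_card hSA
      rw [hSc] at hAS
      have hAc : (insert (f 0) (A \ S)).card = A.card - ℓ + 1 := by
        rw [card_insert_of_notMem (by simp [hrS]), card_sdiff_of_subset hSA, hSc]
      have h1 := ih (A.card - ℓ + 1) (by omega) (insert (f 0) (A \ S)) (con G S (f 0)) hAc
        ⟨f 0, mem_insert_self _ _⟩ (con_sub hrS hGA) (by
          intro L p hp
          rcases Nat.eq_zero_or_pos L with h0 | h0
          · omega
          · obtain ⟨L', p', hL', hp'⟩ := con_lift hrS (vs_linked hf) h0 hp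
            exact hL'.trans (hmax _ _ hp'))
      rw [hAc, Nat.add_sub_cancel] at h1
      have h2 : ∑ z ∈ S, (nb G z ∩ S).card ≤ ℓ * (ℓ - 1) := by
        have : ∀ z ∈ S, (nb G z ∩ S).card ≤ ℓ - 1 := by
          intro z hz
          rw [← hSc, ← card_erase_of_mem hz]
          apply card_le_card
          intro y hy
          rw [mem_inter, mem_nb] at hy
          exact mem_erase.2 ⟨hy.1.ne', hy.2⟩
        calc _ ≤ ∑ _z ∈ S, (ℓ - 1) := sum_le_sum this
          _ = _ := by rw [sum_const, hSc, smul_eq_mul]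
      have h3 : ∑ z ∈ univ \ S, ((nb G z ∩ S).card - 1) = 0 := by
        apply sum_eq_zero
        intro z hz
        rw [mem_sdiff] at hz
        have := hbig z hz.2
        omega
      have h4 : A.card - 1 = (A.card - ℓ) + (ℓ - 1) := by omega
      rw [h4, mul_add]
      have h5 : ℓ * (ℓ - 1) ≤ c * (ℓ - 1) := Nat.mul_le_mul_right _ hℓc
      omega

end Pool.Agent.Q84.TC
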