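import Pool.Agent.Q84.TC.EG2

/-!
# Dense graphs are weakly pancyclic

A graph on `N` vertices with more than `N² / 4` edges and a cycle with more than `N / 2` vertices
contains cycles of all lengths from `3` to the circumference.
-/

set_option autoImplicit false
set_option linter.unusedSectionVars false
open Finset
open scoped Classical

namespace Pool.Agent.Q84.TC

variable {V : Type*} [Fintype V]

/-- the sum of the degrees inside `U` -/
noncomputable def DU (G : SimpleGraph V) (U : Finset V) : ℕ := ∑ x ∈ U, (nb G x ∩ U).card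

theorem DU_erase (G : SimpleGraph V) {U : Finset V} {w : V} (hw : w ∈ U) :
    DU G U = DU G (U.erase w) + 2 * (nb G w ∩ U).card := by
  unfold DU
  rw [← add_sum_erase U _ hw]
  have h1 : ∀ x ∈ U.erase w, (nb G x ∩ U).card = (nb G x ∩ U.erase w).card +
      (if G.Adj w x then 1 else 0) := by
    intro x hx
    split_ifs with h
    · have : nb G x ∩ U = insert w (nb G x ∩ U.erase w) := by
        ext y
        rw [mem_insert, mem_inter, mem_inter, mem_erase]
        constructor
        · rintro ⟨h1, h2⟩
          by_cases hyw : y = w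
          · exact Or.inl hyw
          · exact Or.inr ⟨h1, hyw, h2⟩
        · rintro (rfl | ⟨h1, -, h2⟩)
          · exact ⟨mem_nb.2 h.symm, hw⟩
          · exact ⟨h1, h2⟩
      rw [this, card_insert_of_notMem]
      simp
    · have : nb G x ∩ U = nb G x ∩ U.erase w := by
        ext y
        rw [mem_inter, mem_inter, mem_erase]
        constructor
        · rintro ⟨h1, h2⟩
          refine ⟨h1, ?_, h2⟩
          rintro rfl
          exact h (mem_nb.1 h1).symm
        · rintro ⟨h1, -, h2⟩
          exact ⟨h1, h2⟩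
      rw [this, add_zero]
  rw [sum_congr rfl h1, sum_add_distrib]
  have h2 : ∑ x ∈ U.erase w, (if G.Adj w x then 1 else 0) = (nb G w ∩ U).card := by
    rw [← card_filter]
    congr 1
    ext y
    rw [mem_filter, mem_erase, mem_inter, mem_nb]
    constructor
    · rintro ⟨⟨-, h1⟩, h2⟩
      exact ⟨h2, h1⟩
    · rintro ⟨h1, h2⟩
      exact ⟨⟨h1.ne', h2⟩, h1⟩
  rw [h2]
  ring

theorem path_card {G : SimpleGraph V} {K : Finset V} {k : ℕ} {p : ℕ → V} (hp : PathF G k p)
    (hK : ∀ a, a < k → p a ∈ K) : k ≤ K.card := by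
  have := card_le_card_of_injOn (s := range k) (t := K) p (fun a ha => hK a (mem_range.1 ha)) (by
    intro i hi j hj hij
    rw [mem_coe, mem_range] at hi hj
    rcases lt_trichotomy i j with h | h | h
    · exact absurd hij (hp.1 _ _ h hj)
    · exact h
    · exact absurd hij.symm (hp.1 _ _ h hi))
  rwa [card_range] at this

/-- the neighbours in `K` of the first vertex of a longest path of `K` are on the path -/
theorem end_nb {G : SimpleGraph V} {K : Finset V} {k : ℕ} {p : ℕ → V} (hk : 1 ≤ k)
    (hp : PathF G k p) (hK : ∀ a, a < k → p a ∈ K)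
    (hmax : ∀ k' p', PathF G k' p' → (∀ a, a < k' → p' a ∈ K) → k' ≤ k) :
    (nb G (p 0) ∩ K).card ≤ k - 1 := by
  have hsub : nb G (p 0) ∩ K ⊆ ((range k).image p).erase (p 0) := by
    intro z hz
    rw [mem_inter, mem_nb] at hz
    rw [mem_erase]
    refine ⟨hz.1.ne', ?_⟩
    by_contra hcon
    have hzne : ∀ a, a < k → z ≠ p a := by
      intro a ha h
      exact hcon (mem_image.2 ⟨a, mem_range.2 ha, h.symm⟩)
    have := hmax (k + 1) (fun t => if t = 0 then z else p (t - 1)) ⟨?_, ?_⟩ ?_
    · omega
    · intro i j hij hj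
      have hj0 : j ≠ 0 := by omega
      simp only [hj0, if_false]
      split_ifs
      · exact hzne _ (by omega)
      · exact hp.1 _ _ (by omega) (by omega)
    · intro i hi
      have hi0 : i + 1 ≠ 0 := by omega
      beta_reduce
      rw [if_neg hi0]
      split_ifs with h1
      · subst h1
        exact hz.1.symm
      · have := hp.2 (i - 1) (by omega)
        have e : i - 1 + 1 = i + 1 - 1 := by omega
        rwa [e] at this
    · intro a ha
      split_ifs
      · exact hz.2
      · exact hK _ (by omega)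
  have h1 := card_le_card hsub
  rw [card_erase_of_mem (mem_image_of_mem _ (mem_range.2 (by omega)))] at h1
  have h2 : ((range k).image p).card ≤ k := card_image_le.trans (by simp)
  omega

theorem nb_vs_le (G : SimpleGraph V) (c : ℕ) (f : ℕ → V) (x : V) :
    (nb G x ∩ vs f c).card ≤
      ((range c).filter (fun i => 1 ≤ i ∧ G.Adj x (f i))).card + 1 := by
  have hsub : nb G x ∩ vs f c ⊆
      insert (f 0) (((range c).filter (fun i => 1 ≤ i ∧ G.Adj x (f i))).image f) := by
    intro z hz
    rw [mem_inter, mem_nb] at hz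
    obtain ⟨i, hi, rfl⟩ := mem_image.1 hz.2
    rcases Nat.eq_zero_or_pos i with h | h
    · subst h; exact mem_insert_self _ _
    · exact mem_insert_of_mem (mem_image_of_mem _ (mem_filter.2 ⟨hi, h, hz.1⟩))
  exact (card_le_card hsub).trans ((card_insert_le _ _).trans (Nat.add_le_add_right card_image_le 1))

theorem weak {G : SimpleGraph V} {c : ℕ} {f : ℕ → V} (hf : Per G c f)
    (hmax : ∀ L p, CycF G L p → L ≤ c) (hN : Fintype.card V < 2 * c)
    (hD : Fintype.card V ^ 2 < 2 * DU G univ) : c ^ 2 < 2 * DU G (vs f c) := by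
  set S := vs f c with hS
  have hSc : S.card = c := card_vs hf
  obtain ⟨U, hU, hUmin⟩ := exists_min_image
    (univ.filter (fun U : Finset V => S ⊆ U ∧ U.card ^ 2 < 2 * DU G U)) card
    ⟨univ, by rw [mem_filter]; exact ⟨mem_univ _, subset_univ _, by rwa [card_univ]⟩⟩
  rw [mem_filter] at hU
  obtain ⟨-, hSU, hUD⟩ := hU
  by_cases hUS : U = S
  · rw [← hUS]; rw [← hUS] at hSc; rwa [hSc] at hUD
  exfalso
  set K := U \ S with hK
  have hKne : K.Nonempty := by
    rw [nonempty_iff_ne_empty]
    intro h
    rw [hK, sdiff_eq_empty_iff_subset] at h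
    exact hUS (Subset.antisymm h hSU)
  have hKc : K.card = U.card - c := by rw [hK, card_sdiff_of_subset hSU, hSc]
  have hUc : U.card ≤ Fintype.card V := card_le_univ U
  have hcU : c ≤ U.card := by rw [← hSc]; exact card_le_card hSU
  have hKpos := hKne.card_pos
  -- degrees outside the cycle
  have hdeg : ∀ w ∈ K, U.card ≤ 2 * (nb G w ∩ U).card := by
    intro w hw
    rw [hK, mem_sdiff] at hw
    have h1 := DU_erase G hw.1
    have h2 : 2 * DU G (U.erase w) ≤ (U.card - 1) ^ 2 := by
      by_contra hcon
      push Not at hcon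
      have := hUmin (U.erase w) (by
        rw [mem_filter]
        refine ⟨mem_univ _, ?_, ?_⟩
        · intro z hz
          rw [mem_erase]
          refine ⟨?_, hSU hz⟩
          rintro rfl
          exact hw.2 hz
        · rw [card_erase_of_mem hw.1]; exact hcon)
      rw [card_erase_of_mem hw.1] at this
      omega
    obtain ⟨u, hu⟩ : ∃ u, U.card = u + 1 := ⟨U.card - 1, by omega⟩
    rw [hu] at h2 hUD ⊢
    rw [Nat.add_sub_cancel] at h2
    nlinarith
  -- a longest path outside the cycle
  have hbdd : BddAbove {k | ∃ p, PathF G k p ∧ ∀ a, a < k → p a ∈ K} :=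
    ⟨K.card, fun k ⟨p, hp, hpK⟩ => path_card hp hpK⟩
  obtain ⟨w0, hw0⟩ := hKne
  have h1mem : (1 : ℕ) ∈ {k | ∃ p, PathF G k p ∧ ∀ a, a < k → p a ∈ K} :=
    ⟨fun _ => w0, ⟨fun i j hij hj => by omega, fun i hi => by omega⟩, fun _ _ => hw0⟩
  have hmem := Nat.sSup_mem (s := {k | ∃ p, PathF G k p ∧ ∀ a, a < k → p a ∈ K}) ⟨1, h1mem⟩ hbdd
  have hk1 := le_csSup hbdd h1mem
  set k := sSup {k | ∃ p, PathF G k p ∧ ∀ a, a < k → p a ∈ K} with hk
  obtain ⟨p, hp, hpK⟩ := hmem
  have hpmax : ∀ k' p', PathF G k' p' → (∀ a, a < k' → p' a ∈ K) → k' ≤ k :=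
    fun k' p' h1 h2 => le_csSup hbdd ⟨p', h1, h2⟩
  have hkK := path_card hp hpK
  -- attachments of the ends
  have hatt : ∀ q, PathF G k q → (∀ a, a < k → q a ∈ K) →
      U.card + 2 ≤ 2 * (nb G (q 0) ∩ S).card + 2 * k := by
    intro q hq hqK
    have h2 := end_nb hk1 hq hqK hpmax
    have h3 := hdeg _ (hqK 0 (by omega))
    have h4 : (nb G (q 0) ∩ U).card ≤ (nb G (q 0) ∩ S).card + (nb G (q 0) ∩ K).card := by
      refine (card_le_card ?_).trans (card_union_le _ _)
      intro z hz
      rw [mem_inter] at hz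
      by_cases hzS : z ∈ S
      · exact mem_union_left _ (mem_inter.2 ⟨hz.1, hzS⟩)
      · exact mem_union_right _ (mem_inter.2 ⟨hz.1, by rw [hK, mem_sdiff]; exact ⟨hz.2, hzS⟩⟩)
    omega
  have hA := hatt p hp hpK
  have hB := hatt _ hp.rev (fun a ha => hpK _ (by omega))
  rw [Nat.sub_zero] at hB
  have hBpos : 0 < (nb G (p (k - 1)) ∩ S).card := by omega
  obtain ⟨z, hz⟩ := card_pos.1 hBpos
  rw [mem_inter, mem_nb] at hz
  obtain ⟨t, -, rfl⟩ := mem_image.1 hz.2
  have hg := hf.shift t
  set g : ℕ → V := fun i => f (t + i) with hgdef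
  have hout : ∀ a, a < k → ∀ j, g j ≠ p a := by
    intro a ha j h
    have := hpK a ha
    rw [hK, mem_sdiff] at this
    exact this.2 (h ▸ mem_vs hf _)
  have hSg : vs g c = S := by
    apply eq_of_subset_of_card_le
    · intro z hz
      obtain ⟨i, -, rfl⟩ := mem_image.1 hz
      exact mem_vs hf _
    · rw [hSc, card_vs hg]
  have hle := nb_vs_le G c g (p 0)
  rw [hSg] at hle
  set I := (range c).filter (fun i => 1 ≤ i ∧ G.Adj (p 0) (g i)) with hI
  have hg0 : G.Adj (g 0) (p (k - 1)) := by simpa [hgdef] using hz.1.symm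
  have hI1 : ∀ i ∈ I, k + 1 ≤ i ∧ i + k + 1 ≤ c := by
    intro i hi
    rw [hI, mem_filter, mem_range] at hi
    constructor
    · refine hg.detour hmax (s := 0) (i := i) hi.2.1 hi.1 hk1 hp.rev
        (fun a ha => hout _ (by omega)) (by simpa using hg0) ?_
      have e : k - 1 - (k - 1) = 0 := by omega
      simp only [e, zero_add]
      exact hi.2.2
    · have := hg.detour hmax (s := i) (i := c - i) (by omega) (by omega) hk1 hp hout
        hi.2.2.symm (by
          have e : i + (c - i) = 0 + c := by omega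
          rw [e, hg.2.1]
          exact hg0.symm)
      omega
  have hI2 : ∀ i ∈ I, i + 1 ∉ I := by
    intro i hi hi'
    rw [hI, mem_filter, mem_range] at hi hi'
    have hp1 : PathF G 1 p := ⟨fun i j hij hj => by omega, fun i hi => by omega⟩
    have := hg.detour hmax (s := i) (i := 1) le_rfl (by omega) le_rfl hp1
      (fun a ha => hout a (by omega)) hi.2.2.symm hi'.2.2
    omega
  have hI3 : I ∪ I.image (fun i => i + 1) ⊆ Icc (k + 1) (c - k) := by
    intro i hi
    rw [mem_union, mem_image] at hi
    rw [mem_Icc]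
    rcases hi with hi | ⟨j, hj, rfl⟩
    · have := hI1 i hi; omega
    · have := hI1 j hj; omega
  have hI4 := card_le_card hI3
  rw [card_union_of_disjoint, card_image_of_injective _ (fun a b h => Nat.succ_injective h),
    Nat.card_Icc] at hI4
  swap
  · rw [disjoint_left]
    intro i hi hi'
    obtain ⟨j, hj, rfl⟩ := mem_image.1 hi'
    exact hI2 j hj hi
  have hIpos : 0 < I.card := by omega
  obtain ⟨i0, hi0⟩ := card_pos.1 hIpos
  have := hI1 i0 hi0
  omega

/-- A cycle through all vertices of a set with many edges: cycles of all lengths. -/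
theorem pancyclic {G : SimpleGraph V} {c : ℕ} {f : ℕ → V} (hf : Per G c f)
    (hD : c ^ 2 < 2 * DU G (vs f c)) {ℓ : ℕ} (h3 : 3 ≤ ℓ) (hℓ : ℓ ≤ c) : ∃ p, CycF G ℓ p := by
  set S := vs f c with hS
  have hsum : DU G S = ∑ i ∈ range c, (nb G (f i) ∩ S).card := by
    unfold DU
    rw [hS]
    unfold vs
    rw [sum_image]
    intro i hi j hj hij
    exact hf.inj (mem_range.1 hi) (mem_range.1 hj) hij
  have hsum2 : ∑ i ∈ range c, (nb G (f (i + 1)) ∩ S).card = DU G S := by
    rw [hsum]
    have h1 := sum_range_succ (fun i => (nb G (f i) ∩ S).card) c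
    have h2 := sum_range_succ' (fun i => (nb G (f i) ∩ S).card) c
    have h4 : f c = f 0 := by have := hf.2.1 0; rwa [zero_add] at this
    rw [h4] at h1
    omega
  obtain ⟨i, -, hi⟩ : ∃ i ∈ range c, c < (nb G (f i) ∩ S).card + (nb G (f (i + 1)) ∩ S).card := by
    by_contra hcon
    push Not at hcon
    have h1 := sum_le_sum hcon
    rw [sum_add_distrib, hsum2, ← hsum, sum_const, card_range, smul_eq_mul] at h1
    nlinarith
  have hg := hf.shift (i + 1)
  set g : ℕ → V := fun j => f (i + 1 + j) with hgdef
  have hg0 : g 0 = f (i + 1) := by simp [hgdef]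
  have hgc : g (c - 1) = f i := by
    have e : i + 1 + (c - 1) = i + c := by have := hf.1; omega
    simp only [hgdef, e]
    exact hf.2.1 i
  have hSmem : ∀ z ∈ S, ∃ j, j < c ∧ g j = z := by
    intro z hz
    have hSg : vs g c = S := by
      apply eq_of_subset_of_card_le
      · intro z hz
        obtain ⟨i, -, rfl⟩ := mem_image.1 hz
        exact mem_vs hf _
      · rw [hS, card_vs hf, card_vs hg]
    rw [← hSg] at hz
    obtain ⟨j, hj, rfl⟩ := mem_image.1 hz
    exact ⟨j, mem_range.1 hj, rfl⟩
  set A := (Icc 1 (c - 2)).filter (fun j => G.Adj (g 0) (g j)) with hA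
  set B := (Icc 1 (c - 2)).filter (fun j => G.Adj (g (c - 1)) (g j)) with hB
  have hAc : (nb G (f (i + 1)) ∩ S).card ≤ A.card + 1 := by
    have hsub : nb G (f (i + 1)) ∩ S ⊆ insert (g (c - 1)) (A.image g) := by
      intro z hz
      rw [mem_inter, mem_nb] at hz
      obtain ⟨j, hj, rfl⟩ := hSmem z hz.2
      by_cases hj1 : j = c - 1
      · rw [hj1]; exact mem_insert_self _ _
      · apply mem_insert_of_mem
        apply mem_image_of_mem
        rw [hA, mem_filter, mem_Icc, hg0]
        refine ⟨⟨?_, by omega⟩, hz.1⟩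
        by_contra h0
        have : j = 0 := by omega
        subst this
        rw [hg0] at hz
        exact hz.1.ne rfl
    exact (card_le_card hsub).trans ((card_insert_le _ _).trans
      (Nat.add_le_add_right card_image_le 1))
  have hBc : (nb G (f i) ∩ S).card ≤ B.card + 1 := by
    have hsub : nb G (f i) ∩ S ⊆ insert (g 0) (B.image g) := by
      intro z hz
      rw [mem_inter, mem_nb] at hz
      obtain ⟨j, hj, rfl⟩ := hSmem z hz.2
      by_cases hj1 : j = 0
      · rw [hj1]; exact mem_insert_self _ _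
      · apply mem_insert_of_mem
        apply mem_image_of_mem
        rw [hB, mem_filter, mem_Icc, hgc]
        refine ⟨⟨by omega, ?_⟩, hz.1⟩
        by_contra h0
        have : j = c - 1 := by omega
        subst this
        rw [hgc] at hz
        exact hz.1.ne rfl
    exact (card_le_card hsub).trans ((card_insert_le _ _).trans
      (Nat.add_le_add_right card_image_le 1))
  set φ : ℕ → ℕ := fun j => if j + ℓ - 3 ≤ c - 2 then j + ℓ - 3 else j + ℓ - c - 1 with hφ
  have hex : ∃ j ∈ A, φ j ∈ B := by
    by_contra hcon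
    push Not at hcon
    have hsub : A.image φ ∪ B ⊆ Icc 1 (c - 2) := by
      intro j hj
      rw [mem_union, mem_image] at hj
      rcases hj with ⟨j', hj', rfl⟩ | hj
      · rw [hA, mem_filter, mem_Icc] at hj'
        rw [mem_Icc]
        simp only [hφ]
        split_ifs <;> omega
      · rw [hB, mem_filter] at hj
        exact hj.1
    have h1 := card_le_card hsub
    rw [card_union_of_disjoint, card_image_of_injOn, Nat.card_Icc] at h1
    · have := hf.two_le
      omega
    · intro a ha b hb hab
      rw [mem_coe, hA, mem_filter, mem_Icc] at ha hb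
      simp only [hφ] at hab
      split_ifs at hab <;> omega
    · rw [disjoint_left]
      intro j hj
      obtain ⟨j', hj', rfl⟩ := mem_image.1 hj
      exact hcon j' hj'
  obtain ⟨j, hjA, hjB⟩ := hex
  rw [hA, mem_filter, mem_Icc] at hjA
  rw [hB, mem_filter, mem_Icc] at hjB
  simp only [hφ] at hjB
  split_ifs at hjB with hcase
  · refine ⟨fun t => if t = 0 then g 0 else if t < ℓ - 1 then g (j + t - 1) else g (c - 1),
      ⟨?_, ?_⟩, ?_⟩
    · intro a b hab hb
      dsimp only
      have hb0 : b ≠ 0 := by omega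
      split_ifs
      · exact hg.2.2.2 _ _ (by omega) (by omega)
      · exact hg.2.2.2 _ _ (by omega) (by omega)
      · exact hg.2.2.2 _ _ (by omega) (by omega)
      · exact hg.2.2.2 _ _ (by omega) (by omega)
      · omega
      · omega
    · intro a ha
      have hb0 : a + 1 ≠ 0 := by omega
      beta_reduce
      rw [if_neg hb0]
      split_ifs with h1 h2 h2 h4
      · subst h1
        simpa using hjA.2
      · omega
      · have e : j + (a + 1) - 1 = (j + a - 1) + 1 := by omega
        rw [e]; exact hg.2.2.1 _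
      · have e : j + a - 1 = j + ℓ - 3 := by omega
        rw [e]; exact hjB.2.symm
      · omega
      · omega
    · dsimp only
      have e1 : ℓ - 1 ≠ 0 := by omega
      have e2 : ¬ (ℓ - 1 < ℓ - 1) := by omega
      simp only [e1, e2, if_true, if_false]
      exact hg.cycF.2
  · refine ⟨fun t => if t ≤ j + ℓ - c - 1 then g t else g (c + (j + ℓ - c - 1) - t), ⟨?_, ?_⟩, ?_⟩
    · intro a b hab hb
      dsimp only
      split_ifs
      · exact hg.2.2.2 _ _ (by omega) (by omega)
      · exact hg.2.2.2 _ _ (by omega) (by omega)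
      · omega
      · exact (hg.2.2.2 _ _ (by omega) (by omega)).symm
    · intro a ha
      dsimp only
      split_ifs with h1 h2 h2
      · exact hg.2.2.1 _
      · have e1 : a = j + ℓ - c - 1 := by omega
        have e2 : c + (j + ℓ - c - 1) - (a + 1) = c - 1 := by omega
        rw [e2, e1]; exact hjB.2.symm
      · omega
      · have e : c + (j + ℓ - c - 1) - a = c + (j + ℓ - c - 1) - (a + 1) + 1 := by omega
        rw [e]; exact (hg.2.2.1 _).symm
    · dsimp only
      have e1 : ¬ (ℓ - 1 ≤ j + ℓ - c - 1) := by omega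
      have e2 : 0 ≤ j + ℓ - c - 1 := by omega
      simp only [e1, e2, if_true, if_false]
      have e3 : c + (j + ℓ - c - 1) - (ℓ - 1) = j := by omega
      rw [e3]
      exact hjA.2.symm

end Pool.Agent.Q84.TC
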